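import Pool.Agent.Run7.h484.Main2

/-! One group acting geometrically on two Helly graphs whose injective hulls have
non-homeomorphic boundaries. -/

open Run7.h484 in
/-- There are a group `G` and two Helly graphs `Γ₁`, `Γ₂` with geometric actions of `G` such that
both injective hulls carry convex consistent reversible geodesic bicombings, and for all such
bicombings and all base points the two boundaries are not homeomorphic. -/
theorem Pool.Agent.Results.MP_f8dec8_al.HellyBoundaries.result :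
    ∃ (G : Type) (_ : Group G) (V₁ V₂ : Type) (_ : MulAction G V₁) (_ : MulAction G V₂)
      (Γ₁ : SimpleGraph V₁) (Γ₂ : SimpleGraph V₂) (h₁ : IsHelly Γ₁) (h₂ : IsHelly Γ₂),
      IsGeometricAction G Γ₁ ∧ IsGeometricAction G Γ₂ ∧
      (∃ σ₁ : GHull Γ₁ h₁.connected → GHull Γ₁ h₁.connected → ℝ → GHull Γ₁ h₁.connected,
        IsBicombing σ₁) ∧
      (∃ σ₂ : GHull Γ₂ h₂.connected → GHull Γ₂ h₂.connected → ℝ → GHull Γ₂ h₂.connected,
        IsBicombing σ₂) ∧
      ∀ (σ₁ : GHull Γ₁ h₁.connected → GHull Γ₁ h₁.connected → ℝ → GHull Γ₁ h₁.connected)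
        (σ₂ : GHull Γ₂ h₂.connected → GHull Γ₂ h₂.connected → ℝ → GHull Γ₂ h₂.connected),
        IsBicombing σ₁ → IsBicombing σ₂ → ∀ p₁ p₂,
          IsEmpty (Bdry σ₁ p₁ ≃ₜ Bdry σ₂ p₂) :=
  two_boundaries'
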